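import Pool.Agent.U29.EU.Stm

set_option autoImplicit false

/-! Package CNT of project EU: summability over pairs of wave vectors. -/

namespace Pool.Agent.U473.EU.CNT

open Pool.Agent.N983.RT Pool.Agent.U29.EU

theorem nsq_nonneg' (k : Wv) : 0 ≤ nsq k := by
  unfold nsq
  exact Finset.sum_nonneg fun i _ => sq_nonneg (k i : ℝ)

theorem summable_one' {p : ℝ} (hp : 1 / 2 < p) :
    Summable fun n : ℤ => (1 + (n : ℝ) ^ 2) ^ (-p) := by
  have h1 : Summable fun n : ℤ => |(n : ℝ)| ^ (-(2 * p)) :=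
    Real.summable_abs_int_rpow (by linarith)
  rw [← Set.finite_singleton (0 : ℤ) |>.summable_compl_iff] at h1 ⊢
  refine Summable.of_nonneg_of_le (fun n => ?_) (fun n => ?_) h1
  · simp only [Function.comp]
    positivity
  have hn : (n : ℤ) ≠ 0 := n.2
  have h0 : ((n : ℤ) : ℝ) ≠ 0 := by exact_mod_cast hn
  have h2 : (0 : ℝ) < |((n : ℤ) : ℝ)| := abs_pos.2 h0
  simp only [Function.comp]
  have h3 : |((n : ℤ) : ℝ)| ^ (-(2 * p)) = (((n : ℤ) : ℝ) ^ 2) ^ (-p) := by
    rw [← sq_abs, ← Real.rpow_natCast, ← Real.rpow_mul h2.le]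
    congr 1
    push_cast
    ring
  rw [h3]
  apply Real.rpow_le_rpow_of_nonpos (by positivity) (by linarith) (by linarith)

theorem prod_le (k : Wv) : ∏ i, (1 + (k i : ℝ) ^ 2) ≤ (1 + nsq k) ^ 3 := by
  have h : ∀ i ∈ (Finset.univ : Finset (Fin 3)), (1 + (k i : ℝ) ^ 2) ≤ 1 + nsq k := by
    intro i _
    have : (k i : ℝ) ^ 2 ≤ nsq k :=
      Finset.single_le_sum (f := fun i => (k i : ℝ) ^ 2) (fun i _ => sq_nonneg _) (Finset.mem_univ i)
    linarith
  calc ∏ i, (1 + (k i : ℝ) ^ 2) ≤ ∏ _i : Fin 3, (1 + nsq k) :=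
        Finset.prod_le_prod (fun i _ => by positivity) h
    _ = (1 + nsq k) ^ 3 := by simp

theorem sum_Wv {r : ℝ} (hr : 3 / 2 < r) : Summable fun k : Wv => (1 + nsq k) ^ (-r) := by
  have hs := summable_one' (p := r / 3) (by linarith)
  refine summable_of_sum_le (c := (∑' n : ℤ, (1 + (n : ℝ) ^ 2) ^ (-(r / 3))) ^ 3) ?_ ?_
  · intro k
    have := nsq_nonneg' k
    positivity
  · intro s
    calc ∑ k ∈ s, (1 + nsq k) ^ (-r) ≤ ∑ k ∈ s, ∏ i, (1 + (k i : ℝ) ^ 2) ^ (-(r / 3)) := by
          refine Finset.sum_le_sum fun k _ => ?_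
          have h0 := nsq_nonneg' k
          rw [Real.finsetProd_rpow _ _ (fun i _ => by positivity)]
          have h1 : (1 + nsq k) ^ (-r) = ((1 + nsq k) ^ 3) ^ (-(r / 3)) := by
            rw [← Real.rpow_natCast, ← Real.rpow_mul (by linarith)]
            congr 1
            push_cast
            ring
          rw [h1]
          exact Real.rpow_le_rpow_of_nonpos (Finset.prod_pos fun i _ => by positivity)
            (prod_le k) (by linarith)
      _ ≤ ∑ k ∈ Fintype.piFinset (fun i : Fin 3 => s.image (fun k : Wv => k i)),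
            ∏ i, (1 + (k i : ℝ) ^ 2) ^ (-(r / 3)) := by
          refine Finset.sum_le_sum_of_subset_of_nonneg ?_ ?_
          · intro k hk
            rw [Fintype.mem_piFinset]
            intro i
            exact Finset.mem_image_of_mem (fun k : Wv => k i) hk
          · intro k _ _
            exact Finset.prod_nonneg fun i _ => by positivity
      _ = ∏ i : Fin 3, ∑ n ∈ s.image (fun k : Wv => k i), (1 + ((n : ℤ) : ℝ) ^ 2) ^ (-(r / 3)) := by
          rw [Finset.prod_univ_sum]
      _ ≤ ∏ _i : Fin 3, ∑' n : ℤ, (1 + (n : ℝ) ^ 2) ^ (-(r / 3)) := by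
          refine Finset.prod_le_prod (fun i _ => Finset.sum_nonneg fun n _ => by positivity) ?_
          intro i _
          exact hs.sum_le_tsum _ (fun n _ => by positivity)
      _ = (∑' n : ℤ, (1 + (n : ℝ) ^ 2) ^ (-(r / 3))) ^ 3 := by simp

theorem t_CNT : S_CNT := by
  intro q hq
  have h1 := sum_Wv (r := q / 4) (by linarith)
  have h2 := h1.mul_of_nonneg h1 (fun k => by have := nsq_nonneg' k; positivity)
    (fun k => by have := nsq_nonneg' k; positivity)
  refine Summable.of_nonneg_of_le (fun p => ?_) (fun p => ?_) h2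
  · have ha := nsq_nonneg' p.1
    have hb := nsq_nonneg' p.2
    positivity
  · have ha := nsq_nonneg' p.1
    have hb := nsq_nonneg' p.2
    rw [← Real.mul_rpow (by linarith) (by linarith)]
    have h3 : (1 + nsq p.1 + nsq p.2) ^ (-q / 2) = ((1 + nsq p.1 + nsq p.2) ^ 2) ^ (-(q / 4)) := by
      rw [← Real.rpow_natCast, ← Real.rpow_mul (by linarith)]
      congr 1
      push_cast
      ring
    rw [h3]
    apply Real.rpow_le_rpow_of_nonpos (by positivity) _ (by linarith)
    nlinarith [mul_nonneg ha hb]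

end Pool.Agent.U473.EU.CNT
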